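import Mathlib

set_option autoImplicit false

/-!
# A semi-separated characterization of the division bimagmas of inverse semigroups

Bimagmas are sets with two binary operations, written here `l` and `r`: `l x y` stands for
`x \ y` and `r x y` for `x / y`.
-/

namespace Pool.Agent.Results.MP_cc6d20_al.SemiSeparated

universe u

/-- Terms in the two operation symbols: `ld s t` is `s \ t`, `rd s t` is `s / t`. -/
inductive Term : Type
  | var : ℕ → Term
  | ld : Term → Term → Term
  | rd : Term → Term → Term

/-- The value of a term in a bimagma, for an assignment of values to the variables. -/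
def Term.eval {S : Type u} (l r : S → S → S) (v : ℕ → S) : Term → S
  | .var i => v i
  | .ld s t => l (s.eval l r v) (t.eval l r v)
  | .rd s t => r (s.eval l r v) (t.eval l r v)

/-- The operation `\` occurs in the term. -/
def Term.HasLd : Term → Prop
  | .var _ => False
  | .ld _ _ => True
  | .rd s t => s.HasLd ∨ t.HasLd

/-- The operation `/` occurs in the term. -/
def Term.HasRd : Term → Prop
  | .var _ => False
  | .ld s t => s.HasRd ∨ t.HasRd
  | .rd _ _ => True

/-- An identity is a pair of terms, its two sides. -/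
abbrev Identity : Type := Term × Term

/-- The identity holds in the bimagma. -/
def Holds {S : Type u} (l r : S → S → S) (p : Identity) : Prop :=
  ∀ v : ℕ → S, p.1.eval l r v = p.2.eval l r v

/-- Both operations occur in the identity. -/
def Mixed (p : Identity) : Prop :=
  (p.1.HasLd ∨ p.2.HasLd) ∧ (p.1.HasRd ∨ p.2.HasRd)

/-- `mul` and `inv` form an inverse semigroup: `mul` is associative and `inv x` is the unique `y`
with `x y x = x` and `y x y = y`. -/
def IsInverseSemigroup {S : Type u} (mul : S → S → S) (inv : S → S) : Prop :=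
  (∀ x y z, mul (mul x y) z = mul x (mul y z)) ∧
  (∀ x, mul (mul x (inv x)) x = x ∧ mul (mul (inv x) x) (inv x) = inv x) ∧
  ∀ x y, mul (mul x y) x = x → mul (mul y x) y = y → y = inv x

/-- The bimagma is the division bimagma of an inverse semigroup on the same set. -/
def IsDivisionBimagma {S : Type u} (l r : S → S → S) : Prop :=
  ∃ (mul : S → S → S) (inv : S → S), IsInverseSemigroup mul inv ∧
    (∀ x y, l x y = mul (inv x) y) ∧ ∀ x y, r x y = mul x (inv y)

/-- The set of identities characterizes the division bimagmas of inverse semigroups. -/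
def Characterizes (E : Set Identity) : Prop :=
  ∀ (S : Type u) (l r : S → S → S), (∀ p ∈ E, Holds l r p) ↔ IsDivisionBimagma l r

section fromIdentities

variable {S : Type u} {l r : S → S → S}

/-- The ten identities. -/
structure Ax (l r : S → S → S) : Prop where
  t1 : ∀ x y z, l (r x y) z = r y (l z x)
  t2 : ∀ x, l (r x x) x = x
  p1 : ∀ x y z w, l (l (l x y) z) w = l z (l (l y x) w)
  p2 : ∀ x y z w, r w (r z (r x y)) = r (r w (r y x)) z
  c1 : ∀ x y, l (l x x) (l y y) = l (l y y) (l x x)
  c2 : ∀ x y, r (r x x) (r y y) = r (r y y) (r x x)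
  i1 : ∀ x y, l (l (l x x) (l y y)) (l (l x x) (l y y)) = l (l x x) (l y y)
  i2 : ∀ x y, r (r (r x x) (r y y)) (r (r x x) (r y y)) = r (r x x) (r y y)
  a1 : ∀ x y z, l (l x x) (l (l y y) (l z z)) = l (l (l x x) (l y y)) (l z z)
  a2 : ∀ x y z, r (r x x) (r (r y y) (r z z)) = r (r (r x x) (r y y)) (r z z)

variable (h : Ax l r)

include h

lemma t2' (x : S) : r x (l x x) = x := by
  rw [← h.t1, h.t2]

/-- Idempotents for the two operations. -/
lemma idem_lr {e : S} (he : l e e = e) : r e e = e := by
  have h1 : r (l e e) (l e e) = l e e := by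
    rw [← h.t1, t2' h]
  rwa [he] at h1

lemma idem_rl {e : S} (he : r e e = e) : l e e = e := by
  have h1 : l (r e e) (r e e) = r e e := by
    rw [h.t1, h.t2]
  rwa [he] at h1

lemma idem_l (x : S) : l (l x x) (l x x) = l x x := by
  have h2 : r (l x x) (l x x) = l x x := by rw [← h.t1, t2' h]
  exact idem_rl h h2

lemma idem_r (x : S) : r (r x x) (r x x) = r x x :=
  idem_lr h (by rw [h.t1, h.t2])

/-- On idempotents the operations coincide. -/
lemma lr_eq {e f : S} (he : l e e = e) (hf : l f f = f) : l e f = r e f := by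
  have he' := idem_lr h he
  have hf' := idem_lr h hf
  have hc1 : ∀ {a b : S}, l a a = a → l b b = b → l a b = l b a := by
    intro a b ha hb
    have := h.c1 a b
    rwa [ha, hb] at this
  have hc2 : ∀ {a b : S}, r a a = a → r b b = b → r a b = r b a := by
    intro a b ha hb
    have := h.c2 a b
    rwa [ha, hb] at this
  have key : ∀ {a b : S}, l a a = a → l b b = b → l a b = r a (l a b) := by
    intro a b ha hb
    have h1 := h.t1 a a b
    rw [idem_lr h ha] at h1
    rw [hc1 ha hb] at h1 ⊢
    exact h1
  set g := l e f with hg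
  set k := r e f with hk
  have hgE : l g g = g := by
    have := h.i1 e f
    rwa [he, hf] at this
  have hkE' : r k k = k := by
    have := h.i2 e f
    rwa [he', hf'] at this
  have hkE := idem_rl h hkE'
  have hgE' := idem_lr h hgE
  have h1 : r e g = g := (key he hf).symm
  have h2 : r f g = g := by
    have := key hf he
    rw [hc1 hf he] at this
    exact this.symm
  have h3 : l k f = k := by
    have := h.t1 f e f
    rw [hf, hc2 hf' he'] at this
    exact this
  have h4 : l k e = k := by
    have := h.t1 e f e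
    rw [he, ← hk] at this
    rw [this, hc2 hf' he']
  have h5 : l k g = k := by
    have := h.a1 k e f
    rw [hkE, he, hf, h4, h3] at this
    exact this
  have h6 : r g k = g := by
    have := h.a2 g e f
    rw [hgE', he', hf', hc2 hgE' he', h1, hc2 hgE' hf', h2] at this
    exact this
  have h7 := h.t1 g g k
  rw [hgE', h5, h6, hc1 hgE hkE, h5] at h7
  exact h7.symm

/-- The inverse of an element. -/
def inv (l r : S → S → S) (x : S) : S := l x (r x x)

lemma idem_r' (x : S) : l (r x x) (r x x) = r x x := idem_rl h (idem_r h x)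

lemma inv_eq (x : S) : inv l r x = r (l x x) x := by
  have h1 := h.t1 x (l x x) (r x x)
  rw [h.t2, t2' h] at h1
  exact h1

lemma inv_idem {e : S} (he : l e e = e) : inv l r e = e := by
  unfold inv
  rw [idem_lr h he, he]

lemma rr (w x z : S) : r (r w x) z = r w (r z (inv l r x)) := by
  have h1 := h.p2 (l x x) x z w
  rw [t2' h] at h1
  rw [← h1, inv_eq h]

lemma rinv (x : S) : r (inv l r x) (inv l r x) = l x x := by
  have h1 := h.t1 (r x x) (r x x) x
  rw [idem_r h, h.t2] at h1
  have h2 := h.t1 (r x x) (l x (r x x)) x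
  rw [← h1] at h2
  unfold inv
  exact h2.symm

lemma inv_inv (x : S) : inv l r (inv l r x) = x := by
  have h1 : inv l r (inv l r x) = l (inv l r x) (l x x) := by
    rw [← rinv h x]; rfl
  rw [h1, inv_eq h, h.t1, idem_l h, t2' h]

lemma linv (x : S) : l (inv l r x) (inv l r x) = r x x := by
  have h1 := rinv h (inv l r x)
  rw [inv_inv h] at h1
  exact h1.symm

lemma rr' (w x z : S) : r (r w (inv l r x)) z = r w (r z x) := by
  rw [rr h, inv_inv h]

lemma p1e {e : S} (he : l e e = e) (c w : S) : l (l e c) w = l c (l e w) := by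
  have h1 := h.p1 e e c w
  rwa [he] at h1

lemma p2e {e : S} (he : l e e = e) (w z : S) : r w (r z e) = r (r w e) z := by
  have h1 := h.p2 e e z w
  rwa [idem_lr h he] at h1

lemma lemA {e : S} (he : l e e = e) (y : S) : r e (inv l r y) = l e y := by
  have h1 := h.t1 (r y y) e y
  rw [← lr_eq h (idem_r' h y) he, p1e h (idem_r' h y), h.t2] at h1
  exact h1.symm

lemma lemA' {e : S} (he : l e e = e) (y : S) : l (inv l r y) e = r y e := by
  rw [inv_eq h, h.t1, lr_eq h he (idem_l h y), p2e h (idem_l h y), t2' h]

lemma t3 (x y : S) : r x (inv l r y) = l (inv l r x) y := by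
  have h1 : l y (l x x) = r (inv l r y) (l x x) := by
    have := lemA' h (idem_l h x) (inv l r y)
    rwa [inv_inv h] at this
  rw [inv_eq h x, h.t1, h1, p2e h (idem_l h x), t2' h]

lemma comm_r {e f : S} (he : l e e = e) (hf : l f f = f) : r e f = r f e := by
  have := h.c2 e f
  rwa [idem_lr h he, idem_lr h hf] at this

lemma t4 (x y : S) : inv l r (r x y) = r y x := by
  have hv : l (r x y) (r x y) = r (r y (l x x)) y := by
    rw [h.t1, h.t1, p2e h (idem_l h x)]
  have hvE : l (r (r y (l x x)) y) (r (r y (l x x)) y) = r (r y (l x x)) y := by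
    rw [← hv]; exact idem_l h _
  have h1 : l y (r y (l x x)) = r (l x x) (l y y) := by
    have h2 := h.t1 y (l y y) (r y (l x x))
    rw [t2' h, h.t1 y (l x x) y, p2e h (idem_l h y), idem_lr h (idem_l h y)] at h2
    rw [h2, comm_r h (idem_l h y) (idem_l h x)]
  have h3 : r (r (r y (l x x)) y) (inv l r y) = r y (l x x) := by
    rw [lemA h hvE, h.t1, h1, p2e h (idem_l h y), t2' h]
  rw [inv_eq h, hv, ← rr' h, h3, ← p2e h (idem_l h x), t2' h]

/-- The product. -/
def mul (l r : S → S → S) (x y : S) : S := r x (inv l r y)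

lemma mul_assoc' (x y z : S) : mul l r (mul l r x y) z = mul l r x (mul l r y z) := by
  unfold mul
  rw [t4 h, rr' h]

lemma mul_inv_self (x : S) : mul l r x (inv l r x) = r x x := by
  unfold mul
  rw [inv_inv h]

lemma inv_mul_self (x : S) : mul l r (inv l r x) x = l x x := by
  unfold mul
  rw [rinv h]

lemma mul_inv_mul (x : S) : mul l r (mul l r x (inv l r x)) x = x := by
  rw [mul_inv_self h]
  unfold mul
  rw [lemA h (idem_r' h x), h.t2]

lemma inv_mul_inv (x : S) : mul l r (mul l r (inv l r x) x) (inv l r x) = inv l r x := by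
  have h1 := mul_inv_mul h (inv l r x)
  rwa [inv_inv h] at h1

lemma inv_mul' (x y : S) : inv l r (mul l r x y) = mul l r (inv l r y) (inv l r x) := by
  unfold mul
  rw [t4 h, inv_inv h]

lemma mul_idem_idem (e : S) {f : S} (hf : l f f = f) :
    mul l r e f = r e f := by
  unfold mul
  rw [inv_idem h hf]

/-- The idempotents of the product are those of `l`. -/
lemma idem_of_mul {i : S} (hi : mul l r i i = i) : l i i = i := by
  have h1 : inv l r i = mul l r (inv l r i) (inv l r i) := by
    rw [← inv_mul' h, hi]
  have h2 : i = mul l r (r i i) (l i i) := by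
    rw [← mul_inv_self h i, ← inv_mul_self h i, ← mul_assoc' h, mul_assoc' h i, ← h1,
      mul_inv_mul h]
  have h3 := h.i1 (r i i) (l i i)
  rw [idem_r' h, idem_l h, lr_eq h (idem_r' h i) (idem_l h i),
    ← mul_idem_idem h (r i i) (idem_l h i), ← h2] at h3
  exact h3

lemma mul_comm_idem {e f : S} (he : mul l r e e = e) (hf : mul l r f f = f) :
    mul l r e f = mul l r f e := by
  have he' := idem_of_mul h he
  have hf' := idem_of_mul h hf
  rw [mul_idem_idem h e hf', mul_idem_idem h f he', comm_r h he' hf']

end fromIdentities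

/-- Inverses are unique if the idempotents commute. -/
lemma inverse_unique {S : Type u} [Semigroup S]
    (hc : ∀ e f : S, e * e = e → f * f = f → e * f = f * e) {x a b : S}
    (h1 : x * a * x = x) (h2 : a * x * a = a) (h3 : x * b * x = x) (h4 : b * x * b = b) :
    a = b := by
  have e1 : (x * a) * (x * a) = x * a := by rw [← mul_assoc, h1]
  have e2 : (a * x) * (a * x) = a * x := by rw [← mul_assoc, h2]
  have e3 : (x * b) * (x * b) = x * b := by rw [← mul_assoc, h3]
  have e4 : (b * x) * (b * x) = b * x := by rw [← mul_assoc, h4]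
  have h5 : a = b * x * a := by
    calc a = a * x * a := h2.symm
      _ = a * (x * b * x) * a := by rw [h3]
      _ = (a * x) * (b * x) * a := by simp only [mul_assoc]
      _ = (b * x) * (a * x) * a := by rw [hc _ _ e2 e4]
      _ = b * x * (a * x * a) := by simp only [mul_assoc]
      _ = b * x * a := by rw [h2]
  have h6 : b = b * x * a := by
    calc b = b * x * b := h4.symm
      _ = b * (x * a * x) * b := by rw [h1]
      _ = b * ((x * a) * (x * b)) := by simp only [mul_assoc]
      _ = b * ((x * b) * (x * a)) := by rw [hc _ _ e1 e3]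
      _ = (b * x * b) * x * a := by simp only [mul_assoc]
      _ = b * x * a := by rw [h4]
  rw [h5, ← h6]

/-- The identities imply that the bimagma comes from an inverse semigroup. -/
theorem of_ax {S : Type u} {l r : S → S → S} (h : Ax l r) : IsDivisionBimagma l r := by
  refine ⟨mul l r, inv l r, ⟨mul_assoc' h, fun x => ⟨mul_inv_mul h x, inv_mul_inv h x⟩, ?_⟩, ?_, ?_⟩
  · intro x y h1 h2
    letI : Semigroup S := { mul := mul l r, mul_assoc := mul_assoc' h }
    exact inverse_unique (fun e f he hf => mul_comm_idem h he hf) h1 h2 (mul_inv_mul h x)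
      (inv_mul_inv h x)
  · intro x y
    have h1 := t3 h (inv l r x) y
    rw [inv_inv h] at h1
    exact h1.symm
  · intro x y
    unfold mul
    rw [inv_inv h]

section fromInverse

variable {S : Type u} [Semigroup S] {i : S → S}
  (h1 : ∀ x : S, x * i x * x = x) (h2 : ∀ x : S, i x * x * i x = i x)
  (h3 : ∀ x y : S, x * y * x = x → y * x * y = y → y = i x)

include h1 h2 h3

lemma ii (x : S) : i (i x) = x := (h3 (i x) x (h2 x) (h1 x)).symm

lemma i_idem {e : S} (he : e * e = e) : i e = e := by
  refine (h3 e e ?_ ?_).symm <;> rw [he, he]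

/-- Products of idempotents are idempotent. -/
lemma prod_idem {e f : S} (he : e * e = e) (hf : f * f = f) : (e * f) * (e * f) = e * f := by
  set z := i (e * f) with hz
  have a1 : e * f * z * (e * f) = e * f := h1 _
  have a2 : z * (e * f) * z = z := h2 _
  have a3 : f * z * e = z := by
    refine h3 (e * f) (f * z * e) ?_ ?_
    · calc e * f * (f * z * e) * (e * f) = e * (f * f) * z * (e * e) * f := by
            simp only [mul_assoc]
        _ = e * f * z * (e * f) := by rw [he, hf]; simp only [mul_assoc]
        _ = e * f := a1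
    · calc f * z * e * (e * f) * (f * z * e) = f * (z * ((e * e) * (f * f)) * z) * e := by
            simp only [mul_assoc]
        _ = f * z * e := by rw [he, hf, a2]
  have a4 : z * z = z := by
    calc z * z = (f * z * e) * (f * z * e) := by rw [a3]
      _ = f * (z * (e * f) * z) * e := by simp only [mul_assoc]
      _ = z := by rw [a2, a3]
  have a5 : e * f = z := by
    have a6 : i z = z := i_idem h1 h2 h3 a4
    rw [hz, ii h1 h2 h3, ← hz] at a6
    exact a6
  rw [a5, a4]

lemma idem_comm {e f : S} (he : e * e = e) (hf : f * f = f) : e * f = f * e := by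
  have b1 := prod_idem h1 h2 h3 he hf
  have b2 := prod_idem h1 h2 h3 hf he
  have b3 : f * e = i (e * f) := by
    refine h3 _ _ ?_ ?_
    · calc e * f * (f * e) * (e * f) = e * (f * f) * (e * e) * f := by simp only [mul_assoc]
        _ = e * f * (e * f) := by rw [he, hf]; simp only [mul_assoc]
        _ = e * f := b1
    · calc f * e * (e * f) * (f * e) = f * (e * e) * (f * f) * e := by simp only [mul_assoc]
        _ = f * e * (f * e) := by rw [he, hf]; simp only [mul_assoc]
        _ = f * e := b2
  rw [b3, i_idem h1 h2 h3 b1]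

lemma idem_xi (x : S) : (x * i x) * (x * i x) = x * i x := by rw [← mul_assoc, h1]

lemma idem_ix (x : S) : (i x * x) * (i x * x) = i x * x := by rw [← mul_assoc, h2]

lemma i_mul (x y : S) : i (x * y) = i y * i x := by
  refine (h3 _ _ ?_ ?_).symm
  · calc x * y * (i y * i x) * (x * y) = x * ((y * i y) * (i x * x)) * y := by
          simp only [mul_assoc]
      _ = x * ((i x * x) * (y * i y)) * y := by
          rw [idem_comm h1 h2 h3 (idem_xi h1 h2 h3 y) (idem_ix h1 h2 h3 x)]
      _ = (x * i x * x) * (y * i y * y) := by simp only [mul_assoc]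
      _ = x * y := by rw [h1, h1]
  · calc i y * i x * (x * y) * (i y * i x) = i y * ((i x * x) * (y * i y)) * i x := by
          simp only [mul_assoc]
      _ = i y * ((y * i y) * (i x * x)) * i x := by
          rw [idem_comm h1 h2 h3 (idem_xi h1 h2 h3 y) (idem_ix h1 h2 h3 x)]
      _ = (i y * y * i y) * (i x * x * i x) := by simp only [mul_assoc]
      _ = i y * i x := by rw [h2, h2]

/-- The identities hold in the division bimagma of an inverse semigroup. -/
theorem ax_of : Ax (fun x y : S => i x * y) (fun x y : S => x * i y) := by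
  have hm := i_mul h1 h2 h3
  have hi := ii h1 h2 h3
  have hl : ∀ x : S, i (i x * x) = i x * x := fun x => i_idem h1 h2 h3 (idem_ix h1 h2 h3 x)
  have hr : ∀ x : S, i (x * i x) = x * i x := fun x => i_idem h1 h2 h3 (idem_xi h1 h2 h3 x)
  constructor
  · intro x y z
    show i (x * i y) * z = y * i (i z * x)
    rw [hm, hm, hi, hi, mul_assoc]
  · intro x
    show i (x * i x) * x = x
    rw [hr, h1]
  · intro x y z w
    show i (i (i x * y) * z) * w = i z * (i (i y * x) * w)
    simp only [hm, hi, mul_assoc]
  · intro x y z w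
    show w * i (z * i (x * i y)) = w * i (y * i x) * i z
    simp only [hm, hi, mul_assoc]
  · intro x y
    show i (i x * x) * (i y * y) = i (i y * y) * (i x * x)
    rw [hl, hl, idem_comm h1 h2 h3 (idem_ix h1 h2 h3 x) (idem_ix h1 h2 h3 y)]
  · intro x y
    show (x * i x) * i (y * i y) = (y * i y) * i (x * i x)
    rw [hr, hr, idem_comm h1 h2 h3 (idem_xi h1 h2 h3 x) (idem_xi h1 h2 h3 y)]
  · intro x y
    show i (i (i x * x) * (i y * y)) * (i (i x * x) * (i y * y)) = i (i x * x) * (i y * y)
    have b1 := prod_idem h1 h2 h3 (idem_ix h1 h2 h3 x) (idem_ix h1 h2 h3 y)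
    rw [hl, i_idem h1 h2 h3 b1, b1]
  · intro x y
    show (x * i x) * i (y * i y) * i ((x * i x) * i (y * i y)) = (x * i x) * i (y * i y)
    have b1 := prod_idem h1 h2 h3 (idem_xi h1 h2 h3 x) (idem_xi h1 h2 h3 y)
    rw [hr, i_idem h1 h2 h3 b1, b1]
  · intro x y z
    show i (i x * x) * (i (i y * y) * (i z * z)) = i (i (i x * x) * (i y * y)) * (i z * z)
    have b1 := prod_idem h1 h2 h3 (idem_ix h1 h2 h3 x) (idem_ix h1 h2 h3 y)
    rw [hl, hl, i_idem h1 h2 h3 b1]
    simp only [mul_assoc]
  · intro x y z
    show (x * i x) * i ((y * i y) * i (z * i z)) = (x * i x) * i (y * i y) * i (z * i z)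
    have b1 := prod_idem h1 h2 h3 (idem_xi h1 h2 h3 y) (idem_xi h1 h2 h3 z)
    rw [hr, hr, i_idem h1 h2 h3 b1]
    simp only [mul_assoc]

end fromInverse

/-- The terms used. -/
abbrev X : Term := .var 0
abbrev Y : Term := .var 1
abbrev Z : Term := .var 2
abbrev W : Term := .var 3

/-- The ten identities as pairs of terms: the first two are mixed, the others are not. -/
def E : List Identity :=
  [ (.ld (.rd X Y) Z, .rd Y (.ld Z X)),
    (.ld (.rd X X) X, X),
    (.ld (.ld (.ld X Y) Z) W, .ld Z (.ld (.ld Y X) W)),
    (.rd W (.rd Z (.rd X Y)), .rd (.rd W (.rd Y X)) Z),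
    (.ld (.ld X X) (.ld Y Y), .ld (.ld Y Y) (.ld X X)),
    (.rd (.rd X X) (.rd Y Y), .rd (.rd Y Y) (.rd X X)),
    (.ld (.ld (.ld X X) (.ld Y Y)) (.ld (.ld X X) (.ld Y Y)), .ld (.ld X X) (.ld Y Y)),
    (.rd (.rd (.rd X X) (.rd Y Y)) (.rd (.rd X X) (.rd Y Y)), .rd (.rd X X) (.rd Y Y)),
    (.ld (.ld X X) (.ld (.ld Y Y) (.ld Z Z)), .ld (.ld (.ld X X) (.ld Y Y)) (.ld Z Z)),
    (.rd (.rd X X) (.rd (.rd Y Y) (.rd Z Z)), .rd (.rd (.rd X X) (.rd Y Y)) (.rd Z Z)) ]

/-- The assignment of the values `x, y, z, w` to the first four variables. -/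
def asg {S : Type u} (x y z w : S) : ℕ → S
  | 0 => x
  | 1 => y
  | 2 => z
  | _ => w

theorem holds_iff {S : Type u} (l r : S → S → S) : (∀ p ∈ E, Holds l r p) ↔ Ax l r := by
  constructor
  · intro H
    simp only [E, List.forall_mem_cons, Holds] at H
    obtain ⟨e1, e2, e3, e4, e5, e6, e7, e8, e9, e10, -⟩ := H
    exact ⟨fun x y z => e1 (asg x y z z), fun x => e2 (asg x x x x),
      fun x y z w => e3 (asg x y z w), fun x y z w => e4 (asg x y z w),
      fun x y => e5 (asg x y x x), fun x y => e6 (asg x y x x),
      fun x y => e7 (asg x y x x), fun x y => e8 (asg x y x x),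
      fun x y z => e9 (asg x y z z), fun x y z => e10 (asg x y z z)⟩
  · intro H
    simp only [E, List.forall_mem_cons, Holds]
    exact ⟨fun v => H.t1 _ _ _, fun v => H.t2 _, fun v => H.p1 _ _ _ _, fun v => H.p2 _ _ _ _,
      fun v => H.c1 _ _, fun v => H.c2 _ _, fun v => H.i1 _ _, fun v => H.i2 _ _,
      fun v => H.a1 _ _ _, fun v => H.a2 _ _ _, by simp⟩

theorem mixed_iff (p : Identity) (hp : p ∈ E) (hm : Mixed p) :
    p = (.ld (.rd X Y) Z, .rd Y (.ld Z X)) ∨ p = (.ld (.rd X X) X, X) := by
  simp only [E, List.mem_cons, List.not_mem_nil, or_false] at hp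
  rcases hp with rfl | rfl | rfl | rfl | rfl | rfl | rfl | rfl | rfl | rfl
  · exact Or.inl rfl
  · exact Or.inr rfl
  all_goals simp [Mixed, Term.HasLd, Term.HasRd] at hm

/-- **Main theorem.** There is a semi-separated set of identities (it is finite and at most two of
its identities involve both operations) that characterizes inverse semigroups in terms of their
division bimagmas. -/
theorem result :
    ∃ A : Set Identity, A.Finite ∧ {p ∈ A | Mixed p}.encard ≤ 2 ∧ Characterizes.{u} A := by
  refine ⟨{p | p ∈ E}, E.finite_toSet, ?_, ?_⟩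
  · refine (Set.encard_le_encard (t := {(.ld (.rd X Y) Z, .rd Y (.ld Z X)),
      ((.ld (.rd X X) X, X) : Identity)}) ?_).trans ?_
    · rintro p ⟨hp, hm⟩
      exact mixed_iff p hp hm
    · refine (Set.encard_insert_le _ _).trans ?_
      rw [Set.encard_singleton]
      norm_num
  · intro S l r
    rw [show (∀ p ∈ {p | p ∈ E}, Holds l r p) ↔ (∀ p ∈ E, Holds l r p) from Iff.rfl, holds_iff]
    refine ⟨of_ax, ?_⟩
    rintro ⟨m, i, ⟨ha, hi, hu⟩, hl, hr⟩
    letI : Semigroup S := { mul := m, mul_assoc := ha }
    have h := ax_of (S := S) (i := i) (fun x => (hi x).1) (fun x => (hi x).2) hu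
    have e1 : l = fun x y : S => i x * y := by funext x y; exact hl x y
    have e2 : r = fun x y : S => x * i y := by funext x y; exact hr x y
    rw [e1, e2]
    exact h

end Pool.Agent.Results.MP_cc6d20_al.SemiSeparated
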